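import Mathlib

/-!
# Directional Lipschitz constants of maps into `ℓ₁` (helper file for MP_df3c4e_an)
-/

set_option autoImplicit false

open Set Filter Topology

namespace Pool.Agent.H362

/-- `ℓ₁` -/
abbrev L1 : Type := lp (fun _ : ℕ => ℝ) 1

/-- adding a unit vector in `ℓ₁` -/
lemma norm_add_single (v : L1) (k : ℕ) (r : ℝ) :
    ‖v‖ + |r| - 2 * |v k| ≤ ‖v + lp.single 1 k r‖ := by
  have h1 := lp.norm_compl_sum_single (E := fun _ : ℕ => ℝ) (p := 1) (by norm_num) v {k}
  have h2 := lp.norm_compl_sum_single (E := fun _ : ℕ => ℝ) (p := 1) (by norm_num)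
    (v + lp.single 1 k r) {k}
  simp only [Finset.sum_singleton, ENNReal.toReal_one, Real.rpow_one] at h1 h2
  have h3 : (v + lp.single 1 k r : L1) k = v k + r := by
    rw [lp.coeFn_add, Pi.add_apply, lp.single_apply_self]
  have h4 : v + lp.single 1 k r - lp.single 1 k ((v + lp.single 1 k r : L1) k) =
      v - lp.single 1 k (v k) := by
    rw [h3, lp.single_add]
    abel
  rw [h4, h1, h3] at h2
  have h5 : |r| ≤ |v k + r| + |v k| := by
    have := abs_sub (v k + r) (v k)
    simpa using this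
  have h6 : ‖v k + r‖ = |v k + r| := rfl
  have h7 : ‖v k‖ = |v k| := rfl
  rw [h6, h7] at h2
  linarith

lemma norm_single_L1 (k : ℕ) (r : ℝ) : ‖(lp.single 1 k r : L1)‖ = |r| := by
  rw [lp.norm_single (by norm_num)]
  rfl

/-- coordinates tend to zero -/
lemma coord_small (v : L1) {δ : ℝ} (hδ : 0 < δ) : ∀ᶠ k in atTop, |v k| < δ := by
  have h1 : Summable fun k => ‖v k‖ ^ (1 : ENNReal).toReal := (lp.memℓp v).summable (by norm_num)
  simp only [ENNReal.toReal_one, Real.rpow_one] at h1
  have h2 := Nat.cofinite_eq_atTop ▸ h1.tendsto_cofinite_zero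
  exact h2.eventually_lt_const hδ

section theta

variable {E : Type*} [NormedAddCommGroup E] [NormedSpace ℝ E]

/-- the directional Lipschitz constant -/
noncomputable def theta (g : E → L1) (w : E) : ℝ :=
  ⨆ p : E × {t : ℝ // 0 < t}, ‖g (p.1 + p.2.1 • w) - g p.1‖ / p.2.1

variable {g : E → L1} {L : ℝ}

lemma theta_bdd (hL : ∀ x y, ‖g x - g y‖ ≤ L * ‖x - y‖) (w : E) :
    BddAbove (range fun p : E × {t : ℝ // 0 < t} => ‖g (p.1 + p.2.1 • w) - g p.1‖ / p.2.1) := by
  refine ⟨L * ‖w‖, ?_⟩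
  rintro _ ⟨⟨x, t, ht⟩, rfl⟩
  simp only
  rw [div_le_iff₀ ht]
  refine (hL _ _).trans ?_
  rw [add_sub_cancel_left, norm_smul, Real.norm_eq_abs, abs_of_pos ht]
  linarith

lemma le_theta (hL : ∀ x y, ‖g x - g y‖ ≤ L * ‖x - y‖) (x w : E) {t : ℝ} (ht : 0 < t) :
    ‖g (x + t • w) - g x‖ ≤ t * theta g w := by
  have := le_ciSup (theta_bdd hL w) (x, ⟨t, ht⟩)
  change ‖g (x + t • w) - g x‖ / t ≤ theta g w at this
  rw [div_le_iff₀ ht] at this
  linarith

lemma theta_nonneg (w : E) : 0 ≤ theta g w :=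
  Real.iSup_nonneg fun p => div_nonneg (norm_nonneg _) p.2.2.le

lemma theta_le {w : E} {M : ℝ} (hM : 0 ≤ M) (h : ∀ x, ∀ t > 0, ‖g (x + t • w) - g x‖ ≤ t * M) :
    theta g w ≤ M := by
  apply Real.iSup_le _ hM
  rintro ⟨x, t, ht⟩
  simp only
  rw [div_le_iff₀ ht]
  have := h x t ht
  linarith

lemma theta_le_norm (hL0 : 0 ≤ L) (hL : ∀ x y, ‖g x - g y‖ ≤ L * ‖x - y‖) (w : E) :
    theta g w ≤ L * ‖w‖ := by
  apply theta_le (by positivity)
  intro x t ht
  refine (hL _ _).trans ?_
  rw [add_sub_cancel_left, norm_smul, Real.norm_eq_abs, abs_of_pos ht]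
  linarith

lemma theta_add (hL : ∀ x y, ‖g x - g y‖ ≤ L * ‖x - y‖) (v w : E) :
    theta g (v + w) ≤ theta g v + theta g w := by
  apply theta_le (add_nonneg (theta_nonneg _) (theta_nonneg _))
  intro x t ht
  have h1 := le_theta hL (x + t • w) v ht
  have h2 := le_theta hL x w ht
  have h3 : x + t • (v + w) = x + t • w + t • v := by rw [smul_add]; abel
  rw [h3]
  calc ‖g (x + t • w + t • v) - g x‖ ≤ ‖g (x + t • w + t • v) - g (x + t • w)‖ + ‖g (x + t • w) - g x‖ :=
        norm_sub_le_norm_sub_add_norm_sub _ _ _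
    _ ≤ t * (theta g v + theta g w) := by linarith

lemma theta_smul_le (hL : ∀ x y, ‖g x - g y‖ ≤ L * ‖x - y‖) {s : ℝ} (hs : 0 ≤ s) (w : E) :
    theta g (s • w) ≤ s * theta g w := by
  apply theta_le (mul_nonneg hs (theta_nonneg _))
  intro x t ht
  rcases hs.eq_or_lt with h | h
  · rw [← h]; simp
  · have := le_theta hL x w (t := t * s) (mul_pos ht h)
    rw [smul_smul]
    linarith

lemma theta_neg_le (hL : ∀ x y, ‖g x - g y‖ ≤ L * ‖x - y‖) (w : E) :
    theta g (-w) ≤ theta g w := by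
  apply theta_le (theta_nonneg _)
  intro x t ht
  have := le_theta hL (x + t • (-w)) w ht
  rw [smul_neg, neg_add_cancel_right, norm_sub_rev] at this
  rwa [smul_neg]

lemma theta_neg (hL : ∀ x y, ‖g x - g y‖ ≤ L * ‖x - y‖) (w : E) :
    theta g (-w) = theta g w := by
  apply le_antisymm (theta_neg_le hL w)
  have := theta_neg_le hL (-w)
  rwa [neg_neg] at this

/-- `theta` as a seminorm -/
noncomputable def thetaS (g : E → L1) (hL : ∀ x y, ‖g x - g y‖ ≤ L * ‖x - y‖) : Seminorm ℝ E :=
  Seminorm.ofSMulLE (theta g)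
    (le_antisymm (theta_le le_rfl (fun x t _ => by simp)) (theta_nonneg _))
    (theta_add hL) (by
      intro r x
      rcases le_total 0 r with h | h
      · rw [Real.norm_eq_abs, abs_of_nonneg h]; exact theta_smul_le hL h x
      · rw [Real.norm_eq_abs, abs_of_nonpos h]
        have h1 : r • x = -((-r) • x) := by rw [neg_smul, neg_neg]
        rw [h1, theta_neg hL]
        exact theta_smul_le hL (by linarith) x)

lemma thetaS_apply (hL : ∀ x y, ‖g x - g y‖ ≤ L * ‖x - y‖) (x : E) : thetaS g hL x = theta g x := rfl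

/-- near-extremal pairs -/
lemma exists_near (e : E) {η : ℝ} (hη : 0 < η) :
    ∃ x : E, ∃ t > 0, t * (theta g e - η) < ‖g (x + t • e) - g x‖ := by
  have h : theta g e - η < ⨆ p : E × {t : ℝ // 0 < t}, ‖g (p.1 + p.2.1 • e) - g p.1‖ / p.2.1 := by
    change _ < theta g e
    linarith
  have : Nonempty (E × {t : ℝ // 0 < t}) := ⟨(0, ⟨1, one_pos⟩)⟩
  obtain ⟨⟨x, t, ht⟩, hp⟩ := exists_lt_of_lt_ciSup h
  refine ⟨x, t, ht, ?_⟩
  simp only at hp
  rw [lt_div_iff₀ ht] at hp
  linarith

/-- **Roughness of the directional Lipschitz constant.** -/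
theorem propA (hL : ∀ x y, ‖g x - g y‖ ≤ L * ‖x - y‖) {C : ℝ} (hC : 0 < C)
    (hco : ∀ x, ∀ ρ > 0, ∀ u, ‖u - g x‖ < ρ / C → ∀ δ > 0, ∃ x', ‖x' - x‖ < ρ ∧ ‖g x' - u‖ < δ)
    (e : E) {N : ℝ} (hN : 1 ≤ N) :
    ∃ w : E, ‖w‖ ≤ C * (1 + 1 / N) ∧ N * theta g e + 1 - 3 / N ≤ theta g (N • e + w) ∧
      N * theta g e + 1 - 3 / N ≤ theta g (N • e - w) := by
  have hN0 : 0 < N := by linarith
  obtain ⟨x, t, ht, hxt⟩ := exists_near (g := g) e (η := 1 / (2 * N ^ 2)) (by positivity)
  set r := t / (2 * N) with hr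
  have hr0 : 0 < r := by positivity
  have htr : t = 2 * N * r := by rw [hr]; field_simp
  set c := x + (t / 2) • e with hc
  obtain ⟨k, hk1, hk2⟩ := ((coord_small (g c - g x) (δ := r / (2 * N)) (by positivity)).and
    (coord_small (g c - g (x + t • e)) (δ := r / (2 * N)) (by positivity))).exists
  set u : L1 := g c + lp.single 1 k r with hu
  have hur : ‖u - g c‖ = r := by
    rw [hu, add_sub_cancel_left, norm_single_L1, abs_of_pos hr0]
  have hlt : ‖u - g c‖ < (C * r * (1 + 1 / N)) / C := by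
    rw [hur]
    have : (C * r * (1 + 1 / N)) / C = r + r / N := by field_simp
    rw [this]
    have : 0 < r / N := by positivity
    linarith
  obtain ⟨x', hx'1, hx'2⟩ := hco c (C * r * (1 + 1 / N)) (by positivity) u hlt (r / N) (by positivity)
  have hw : x' = c + r • ((1 / r) • (x' - c)) := by
    rw [smul_smul, mul_one_div_cancel hr0.ne', one_smul]; abel
  set w := (1 / r) • (x' - c) with hwdef
  have hhalf : ‖g c - g x‖ ≤ r * N * theta g e := by
    have := le_theta hL x e (t := t / 2) (by positivity)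
    rw [← hc] at this
    rw [htr] at this
    calc ‖g c - g x‖ ≤ _ := this
      _ = r * N * theta g e := by ring
  have hhalf' : ‖g (x + t • e) - g c‖ ≤ r * N * theta g e := by
    have := le_theta hL c e (t := t / 2) (by positivity)
    have h1 : c + (t / 2) • e = x + t • e := by
      rw [hc, add_assoc, ← add_smul]; ring_nf
    rw [h1] at this
    rw [htr] at this ⊢
    calc _ ≤ _ := this
      _ = r * N * theta g e := by ring
  have hηt : t * (1 / (2 * N ^ 2)) = r / N := by rw [htr]; field_simp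
  have htot : t * theta g e - r / N < ‖g (x + t • e) - g x‖ := by
    have h1 : t * (theta g e - 1 / (2 * N ^ 2)) = t * theta g e - r / N := by rw [mul_sub, hηt]
    rwa [h1] at hxt
  have htri : ‖g (x + t • e) - g x‖ ≤ ‖g (x + t • e) - g c‖ + ‖g c - g x‖ :=
    norm_sub_le_norm_sub_add_norm_sub _ _ _
  have hte : t * theta g e = 2 * (r * N * theta g e) := by rw [htr]; ring
  have hA : r * N * theta g e - r / N ≤ ‖g c - g x‖ := by linarith
  have hB : r * N * theta g e - r / N ≤ ‖g c - g (x + t • e)‖ := by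
    rw [norm_sub_rev]; linarith
  -- the two lower estimates
  have hrN : 2 * (r / (2 * N)) = r / N := by field_simp
  have low1 : r * N * theta g e + r - 3 * (r / N) ≤ ‖g x' - g x‖ := by
    have h1 := norm_add_single (g c - g x) k r
    rw [abs_of_pos hr0] at h1
    have h2 : g c - g x + lp.single 1 k r = (g x' - g x) - (g x' - u) := by rw [hu]; abel
    rw [h2] at h1
    have h3 := norm_sub_le (g x' - g x) (g x' - u)
    linarith
  have low2 : r * N * theta g e + r - 3 * (r / N) ≤ ‖g (x + t • e) - g x'‖ := by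
    rw [norm_sub_rev]
    have h1 := norm_add_single (g c - g (x + t • e)) k r
    rw [abs_of_pos hr0] at h1
    have h2 : g c - g (x + t • e) + lp.single 1 k r = (g x' - g (x + t • e)) - (g x' - u) := by
      rw [hu]; abel
    rw [h2] at h1
    have h3 := norm_sub_le (g x' - g (x + t • e)) (g x' - u)
    linarith
  have up1 : ‖g x' - g x‖ ≤ r * theta g (N • e + w) := by
    have h1 : x' = x + r • (N • e + w) := by
      rw [smul_add, smul_smul, ← add_assoc]
      have : x + (r * N) • e = c := by rw [hc, htr]; congr 2; ring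
      rw [this]
      exact hw
    calc ‖g x' - g x‖ = ‖g (x + r • (N • e + w)) - g x‖ := by rw [← h1]
      _ ≤ _ := le_theta hL x _ hr0
  have up2 : ‖g (x + t • e) - g x'‖ ≤ r * theta g (N • e - w) := by
    have h1 : x + t • e = x' + r • (N • e - w) := by
      rw [smul_sub, smul_smul]
      have h2 : x + t • e = c + (r * N) • e := by
        rw [hc, add_assoc, ← add_smul, htr]; congr 2; ring
      rw [h2]
      have h3 : c = x' - r • w := by rw [eq_sub_iff_add_eq]; exact hw.symm
      rw [h3]; abel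
    calc ‖g (x + t • e) - g x'‖ = ‖g (x' + r • (N • e - w)) - g x'‖ := by rw [← h1]
      _ ≤ _ := le_theta hL x' _ hr0
  refine ⟨w, ?_, ?_, ?_⟩
  · rw [hwdef, norm_smul, Real.norm_eq_abs, abs_of_pos (by positivity)]
    have : 1 / r * ‖x' - c‖ ≤ 1 / r * (C * r * (1 + 1 / N)) :=
      mul_le_mul_of_nonneg_left hx'1.le (by positivity)
    refine this.trans (le_of_eq ?_)
    field_simp
  · have h1 : r * (N * theta g e + 1 - 3 / N) ≤ r * theta g (N • e + w) := by
      refine le_trans (le_of_eq ?_) (low1.trans up1)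
      ring
    exact le_of_mul_le_mul_left h1 hr0
  · have h1 : r * (N * theta g e + 1 - 3 / N) ≤ r * theta g (N • e - w) := by
      refine le_trans (le_of_eq ?_) (low2.trans up2)
      ring
    exact le_of_mul_le_mul_left h1 hr0

end theta

end Pool.Agent.H362
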