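import Pool.Agent.H362.Rough
import Pool.Agent.H362.Theta

/-!
# Rough seminorms on the James tree space (helper file for MP_df3c4e_an)
-/

set_option autoImplicit false
set_option linter.unusedSectionVars false

open Set Filter Topology Pool.Agent.R277.JT
open scoped NNReal

namespace Pool.Agent.H362

section diff

variable {V : Type*} [NormedAddCommGroup V] [NormedSpace ℝ V]

/-- Lipschitz functions are differentiable on a dense set (Rademacher) -/
lemma dense_diff [FiniteDimensional ℝ V] {K : ℝ≥0} {h : V → ℝ} (hh : LipschitzWith K h) :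
    Dense {x | DifferentiableAt ℝ h x} := by
  letI : MeasurableSpace V := borel V
  haveI : BorelSpace V := ⟨rfl⟩
  exact MeasureTheory.Measure.dense_of_ae (hh.ae_differentiableAt (μ := MeasureTheory.Measure.addHaar))

/-- second differences at a point of differentiability -/
lemma second_diff {p : V → ℝ} (hp : ∀ (s : ℝ) (v : V), 0 ≤ s → p (s • v) = s * p v) {e : V}
    (hd : DifferentiableAt ℝ p e) {R ε : ℝ} (hε : 0 < ε) :
    ∃ K > 0, ∀ y : V, ‖y‖ ≤ R → p (K • e + y) + p (K • e - y) ≤ 2 * K * p e + 2 * ε := by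
  set φ := fderiv ℝ p e
  have h1 := hd.hasFDerivAt.isLittleO
  set R' := max R 1 with hR'
  have hR0 : 0 < R' := lt_max_of_lt_right one_pos
  have hRR : R ≤ R' := le_max_left _ _
  have h2 := (Asymptotics.isLittleO_iff.1 h1) (c := ε / R') (by positivity)
  obtain ⟨δ, hδ, h3⟩ := Metric.eventually_nhds_iff.1 h2
  refine ⟨2 * R' / δ, by positivity, ?_⟩
  set K := 2 * R' / δ with hK
  have hK0 : 0 < K := by positivity
  have key : ∀ y : V, ‖y‖ ≤ R → p (K • e + y) ≤ K * p e + φ y + ε := by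
    intro y hy
    have hy1 : ‖(1 / K) • y‖ < δ := by
      rw [norm_smul, Real.norm_eq_abs, abs_of_pos (by positivity)]
      have : 1 / K * ‖y‖ ≤ 1 / K * R' := mul_le_mul_of_nonneg_left (hy.trans hRR) (by positivity)
      refine lt_of_le_of_lt this ?_
      rw [hK]
      field_simp
      norm_num
    have h4 := h3 (y := e + (1 / K) • y) (by rw [dist_eq_norm, add_sub_cancel_left]; exact hy1)
    rw [add_sub_cancel_left] at h4
    have h5 := (abs_le.1 h4).2
    have h6 : p (K • e + y) = K * p (e + (1 / K) • y) := by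
      rw [← hp K _ hK0.le, smul_add, smul_smul, mul_one_div_cancel hK0.ne', one_smul]
    have h7 : fderiv ℝ p e ((1 / K) • y) = 1 / K * φ y := by rw [map_smul, smul_eq_mul]
    rw [h7] at h5
    have h8 : ‖(1 / K) • y‖ ≤ 1 / K * R' := by
      rw [norm_smul, Real.norm_eq_abs, abs_of_pos (by positivity)]
      exact mul_le_mul_of_nonneg_left (hy.trans hRR) (by positivity)
    have h9 : ε / R' * ‖(1 / K) • y‖ ≤ 1 / K * ε := by
      calc ε / R' * ‖(1 / K) • y‖ ≤ ε / R' * (1 / K * R') :=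
            mul_le_mul_of_nonneg_left h8 (by positivity)
        _ = 1 / K * ε := by field_simp
    have h10 : p (e + (1 / K) • y) ≤ p e + 1 / K * φ y + 1 / K * ε := by linarith
    rw [h6]
    calc K * p (e + (1 / K) • y) ≤ K * (p e + 1 / K * φ y + 1 / K * ε) :=
          mul_le_mul_of_nonneg_left h10 hK0.le
      _ = K * p e + φ y + ε := by field_simp
  intro y hy
  have h4 := key y hy
  have h5 := key (-y) (by rwa [norm_neg])
  rw [← sub_eq_add_neg, map_neg] at h5
  linarith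

end diff

/-- the functions supported on the levels below `m` -/
noncomputable def low (m : ℕ) : Submodule ℝ (Pre Tree) where
  carrier := {x | ∀ i, m ≤ lev i → x.val i = 0}
  add_mem' := by
    intro a b ha hb i hi
    rw [val_add, ha i hi, hb i hi, add_zero]
  zero_mem' := fun i _ => val_zero i
  smul_mem' := by
    intro c x hx i hi
    rw [val_smul, hx i hi, mul_zero]

lemma mem_low {m : ℕ} {x : Pre Tree} : x ∈ low m ↔ ∀ i, m ≤ lev i → x.val i = 0 := Iff.rfl

instance (m : ℕ) : FiniteDimensional ℝ (low m) := by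
  have hfin : Finite {i : Tree // lev i < m} := (Lev.fin (I := Tree) m).to_subtype
  let f : low m →ₗ[ℝ] ({i : Tree // lev i < m} → ℝ) :=
    { toFun := fun x i => x.1.val i.1
      map_add' := fun _ _ => rfl
      map_smul' := fun _ _ => rfl }
  apply FiniteDimensional.of_injective f
  intro x y hxy
  apply Subtype.ext
  apply ext_val
  intro i
  by_cases hi : lev i < m
  · exact congrFun hxy ⟨i, hi⟩
  · rw [x.2 i (not_lt.1 hi), y.2 i (not_lt.1 hi)]

/-- the supremum of a seminorm over the unit ball -/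
noncomputable def sp (p : Seminorm ℝ (Pre Tree)) : ℝ := ⨆ v : {v : Pre Tree // ‖v‖ ≤ 1}, p v.1

variable {p : Seminorm ℝ (Pre Tree)} {L : ℝ}

lemma sp_bdd (hL : 0 ≤ L) (hp : ∀ v, p v ≤ L * ‖v‖) :
    BddAbove (range fun v : {v : Pre Tree // ‖v‖ ≤ 1} => p v.1) := by
  refine ⟨L, ?_⟩
  rintro _ ⟨v, rfl⟩
  exact (hp v.1).trans (mul_le_of_le_one_right hL v.2)

lemma sp_le (hL : 0 ≤ L) (hp : ∀ v, p v ≤ L * ‖v‖) : sp p ≤ L := by
  apply Real.iSup_le _ hL
  intro v
  exact (hp v.1).trans (mul_le_of_le_one_right hL v.2)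

lemma le_sp (hL : 0 ≤ L) (hp : ∀ v, p v ≤ L * ‖v‖) (v : Pre Tree) : p v ≤ sp p * ‖v‖ := by
  by_cases hv : v = 0
  · rw [hv]; simp
  · have hv0 : 0 < ‖v‖ := norm_pos_iff.2 hv
    have h1 : p (‖v‖⁻¹ • v) ≤ sp p := by
      refine le_ciSup (sp_bdd hL hp) ⟨‖v‖⁻¹ • v, ?_⟩
      rw [norm_smul, norm_inv, norm_norm, inv_mul_cancel₀ hv0.ne']
    rw [map_smul_eq_mul, norm_inv, norm_norm, inv_mul_le_iff₀ hv0] at h1
    linarith

/-- near-norming points of differentiability -/
lemma exists_good (hL : 0 ≤ L) (hp : ∀ v, p v ≤ L * ‖v‖) {η : ℝ} (hη : 0 < η) (hη' : η < sp p) :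
    ∃ (m : ℕ) (e : Pre Tree), e ∈ low m ∧ ‖e‖ = 1 ∧ sp p - η < p e ∧
      ∀ R ε : ℝ, 0 < ε → ∃ K > 0, ∀ y ∈ low m, ‖y‖ ≤ R →
        p (K • e + y) + p (K • e - y) ≤ 2 * K * p e + 2 * ε := by
  have hne : Nonempty {v : Pre Tree // ‖v‖ ≤ 1} := ⟨⟨0, by simp⟩⟩
  obtain ⟨⟨v, hv1⟩, hv⟩ := exists_lt_of_lt_ciSup (show sp p - η < ⨆ v : {v : Pre Tree // ‖v‖ ≤ 1}, p v.1 by
    change _ < sp p
    linarith)
  simp only at hv
  obtain ⟨m, hm⟩ := exists_lev v
  have hlip : LipschitzWith (Real.toNNReal L) (fun x : low m => p x.1) := by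
    apply LipschitzWith.of_dist_le_mul
    intro x y
    rw [Real.dist_eq, Real.coe_toNNReal _ hL, dist_eq_norm, Submodule.coe_norm, Submodule.coe_sub]
    exact (abs_sub_map_le_sub p x.1 y.1).trans (hp _)
  have hcont : Continuous (fun x : low m => p x.1) := hlip.continuous
  have hopen : IsOpen {x : low m | (sp p - η) * ‖x‖ < p x.1} :=
    isOpen_lt (continuous_const.mul continuous_norm) hcont
  have hmem : (⟨v, hm⟩ : low m) ∈ {x : low m | (sp p - η) * ‖x‖ < p x.1} := by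
    change (sp p - η) * ‖v‖ < p v
    refine lt_of_le_of_lt ?_ hv
    exact mul_le_of_le_one_right (by linarith) hv1
  obtain ⟨e, he1, he2⟩ := (dense_diff hlip).inter_open_nonempty _ hopen ⟨_, hmem⟩
  have he1' : (sp p - η) * ‖e.1‖ < p e.1 := he1
  have hsd := fun R ε (hε : 0 < ε) => second_diff (p := fun x : low m => p x.1) (fun s v hs => by
    change p (s • v.1) = s * p v.1
    rw [map_smul_eq_mul, Real.norm_eq_abs, abs_of_nonneg hs]) he2 (R := R) hε
  have he0 : 0 < ‖e.1‖ := by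
    rw [norm_pos_iff]
    intro h0
    rw [h0] at he1'
    simp at he1'
  refine ⟨m, ‖e.1‖⁻¹ • e.1, (low m).smul_mem _ e.2, ?_, ?_, ?_⟩
  · rw [norm_smul, norm_inv, norm_norm, inv_mul_cancel₀ he0.ne']
  · rw [map_smul_eq_mul, norm_inv, norm_norm, lt_inv_mul_iff₀ he0]
    linarith
  · intro R ε hε
    obtain ⟨K, hK, h⟩ := hsd R ε hε
    refine ⟨K * ‖e.1‖, by positivity, fun y hy hyR => ?_⟩
    have h1 := h ⟨y, hy⟩ hyR
    have h2 : (K * ‖e.1‖) • ‖e.1‖⁻¹ • e.1 = K • e.1 := by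
      rw [smul_smul, mul_assoc, mul_inv_cancel₀ he0.ne', mul_one]
    rw [h2, map_smul_eq_mul, norm_inv, norm_norm]
    have h3 : 2 * (K * ‖e.1‖) * (‖e.1‖⁻¹ * p e.1) = 2 * K * p e.1 := by
      field_simp
    rw [h3]
    exact h1

/-- A seminorm satisfying the conclusion of `propA` has norm at least `√2 / C`. -/
theorem seminorm_bound (hL : 0 ≤ L) (hp : ∀ v, p v ≤ L * ‖v‖) {C : ℝ} (hC : 0 < C)
    (hA : ∀ (e : Pre Tree) (N : ℝ), 1 ≤ N → ∃ w : Pre Tree, ‖w‖ ≤ C * (1 + 1 / N) ∧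
      N * p e + 1 - 3 / N ≤ p (N • e + w) ∧ N * p e + 1 - 3 / N ≤ p (N • e - w)) :
    √2 ≤ sp p * C := by
  have hsp0 : 0 < sp p := by
    obtain ⟨w, _, h, _⟩ := hA 0 4 (by norm_num)
    rw [smul_zero, zero_add, map_zero] at h
    have h1 := le_sp hL hp w
    by_contra hcon
    have h2 : sp p * ‖w‖ ≤ 0 := mul_nonpos_of_nonpos_of_nonneg (not_lt.1 hcon) (norm_nonneg _)
    linarith
  set Λ := sp p with hΛ
  have key : ∀ s : ℝ, 0 < s → s ≤ 1 → s ^ 2 < Λ →
      2 - 10 * s ≤ Λ * (√2 * (C * (1 + s)) + (C * (1 + s)) ^ 2 * s) := by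
    intro s hs hs1 hsΛ
    obtain ⟨m, e, hem, he1, hpe, hsd⟩ := exists_good hL hp (η := s ^ 2) (by positivity) hsΛ
    obtain ⟨K, hK, hKy⟩ := hsd (2 * C) s hs
    set t := 1 / s with ht
    have ht0 : 0 < t := by positivity
    set N := max (K + t) (1 / s) with hN
    have hN1 : K + t ≤ N := le_max_left _ _
    have hN2 : 1 / s ≤ N := le_max_right _ _
    have hN3 : 1 ≤ N := le_trans (by rw [le_div_iff₀ hs]; linarith) hN2
    have hN0 : 0 < N := by linarith
    have hNs : 1 / N ≤ s := by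
      rw [div_le_iff₀ hN0]
      rw [div_le_iff₀ hs] at hN2
      linarith
    obtain ⟨w, hw, hw1, hw2⟩ := hA e N hN3
    set y := res (lo Tree m) w with hy
    set z := res (lv Tree m) w with hz
    have hyz : y + z = w := res_lo_add m w
    have hwb : ‖w‖ ≤ C * (1 + s) := hw.trans (mul_le_mul_of_nonneg_left (by linarith) hC.le)
    have hyb : ‖y‖ ≤ 2 * C := by
      refine (norm_res_le _ _).trans (hwb.trans ?_)
      nlinarith
    have hzb : ‖z‖ ≤ C * (1 + s) := (norm_res_le _ _).trans hwb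
    have hylow : y ∈ low m := by
      intro i hi
      rw [hy, val_res, if_neg (show i ∉ lo Tree m from fun h : lev i < m => absurd h (not_lt.2 hi))]
    have hzhigh : ∀ i, lev i < m → z.val i = 0 := by
      intro i hi
      rw [hz, val_res, if_neg (show i ∉ lv Tree m from fun h : m ≤ lev i => absurd h (not_le.2 hi))]
    have hKy' := hKy y hylow hyb
    have a1 : p (N • e + w) ≤ p (t • e + z) + (N - K - t) * p e + p (K • e + y) := by
      have h1 : N • e + w = (t • e + z) + (N - K - t) • e + (K • e + y) := by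
        rw [← hyz, sub_smul, sub_smul]; abel
      rw [h1]
      refine (map_add_le_add p _ _).trans (add_le_add ((map_add_le_add p _ _).trans
        (add_le_add le_rfl ?_)) le_rfl)
      rw [map_smul_eq_mul, Real.norm_eq_abs, abs_of_nonneg (by linarith)]
    have a2 : p (N • e - w) ≤ p (t • e - z) + (N - K - t) * p e + p (K • e - y) := by
      have h1 : N • e - w = (t • e - z) + (N - K - t) • e + (K • e - y) := by
        rw [← hyz, sub_smul, sub_smul]; abel
      rw [h1]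
      refine (map_add_le_add p _ _).trans (add_le_add ((map_add_le_add p _ _).trans
        (add_le_add le_rfl ?_)) le_rfl)
      rw [map_smul_eq_mul, Real.norm_eq_abs, abs_of_nonneg (by linarith)]
    have hte : ‖t • e‖ = t := by
      rw [norm_smul, he1, Real.norm_eq_abs, abs_of_pos ht0, mul_one]
    have hr := rough (x := t • e) (z := z) (m := m) ((low m).smul_mem t hem) hzhigh
      (by rw [hte]; exact ht0)
    rw [hte] at hr
    have b1 := le_sp hL hp (t • e + z)
    have b2 := le_sp hL hp (t • e - z)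
    rw [← hΛ] at b1 b2
    have c1 : 2 * t * p e + 2 - 6 / N - 2 * s ≤ Λ * (‖t • e + z‖ + ‖t • e - z‖) := by
      have h6 : 6 / N = 2 * (3 / N) := by ring
      rw [h6]
      nlinarith
    have c2 : Λ * (‖t • e + z‖ + ‖t • e - z‖) ≤ Λ * (2 * t + √2 * ‖z‖ + ‖z‖ ^ 2 / t) :=
      mul_le_mul_of_nonneg_left hr hsp0.le
    have c3 : 6 / N ≤ 6 * s := by
      have : 6 / N = 6 * (1 / N) := by ring
      rw [this]; linarith
    have c4 : 2 * t * (Λ - s ^ 2) ≤ 2 * t * p e :=
      mul_le_mul_of_nonneg_left hpe.le (by positivity)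
    have c5 : 2 * t * s ^ 2 = 2 * s := by rw [ht]; field_simp
    have c6 : √2 * ‖z‖ + ‖z‖ ^ 2 / t ≤ √2 * (C * (1 + s)) + (C * (1 + s)) ^ 2 * s := by
      have h1 : ‖z‖ ^ 2 / t = ‖z‖ ^ 2 * s := by rw [ht]; field_simp
      rw [h1]
      gcongr
    have c7 : Λ * (√2 * ‖z‖ + ‖z‖ ^ 2 / t) ≤ Λ * (√2 * (C * (1 + s)) + (C * (1 + s)) ^ 2 * s) :=
      mul_le_mul_of_nonneg_left c6 hsp0.le
    nlinarith
  -- let `s → 0`
  have hlim1 : Tendsto (fun s : ℝ => 2 - 10 * s) (𝓝[>] 0) (𝓝 (2 - 10 * 0)) := by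
    apply Tendsto.mono_left _ nhdsWithin_le_nhds
    exact (continuous_const.sub (continuous_const.mul continuous_id)).tendsto 0
  have hlim2 : Tendsto (fun s : ℝ => Λ * (√2 * (C * (1 + s)) + (C * (1 + s)) ^ 2 * s)) (𝓝[>] 0)
      (𝓝 (Λ * (√2 * (C * (1 + 0)) + (C * (1 + 0)) ^ 2 * 0))) := by
    apply Tendsto.mono_left _ nhdsWithin_le_nhds
    have : Continuous (fun s : ℝ => Λ * (√2 * (C * (1 + s)) + (C * (1 + s)) ^ 2 * s)) := by fun_prop
    exact this.tendsto 0
  have hev : ∀ᶠ s : ℝ in 𝓝[>] 0, 2 - 10 * s ≤ Λ * (√2 * (C * (1 + s)) + (C * (1 + s)) ^ 2 * s) := by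
    have h1 : ∀ᶠ s : ℝ in 𝓝[>] 0, 0 < s := eventually_mem_nhdsWithin
    have h2 : ∀ᶠ s : ℝ in 𝓝[>] 0, s ≤ 1 :=
      nhdsWithin_le_nhds (eventually_le_nhds one_pos)
    have h3 : ∀ᶠ s : ℝ in 𝓝[>] 0, s ^ 2 < Λ := by
      apply nhdsWithin_le_nhds
      have : Tendsto (fun s : ℝ => s ^ 2) (𝓝 0) (𝓝 (0 ^ 2)) := (continuous_pow 2).tendsto 0
      exact this.eventually_lt_const (by rw [zero_pow two_ne_zero]; exact hsp0)
    filter_upwards [h1, h2, h3] with s a b c using key s a b c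
  have hfin := le_of_tendsto_of_tendsto hlim1 hlim2 hev
  have h2 : 2 ≤ Λ * (√2 * C) := by linarith
  have hs2 : √2 * √2 = 2 := Real.mul_self_sqrt (by norm_num)
  have hs0 : 0 < √2 := by positivity
  have h3 : √2 * √2 ≤ √2 * (Λ * C) := by rw [hs2]; linarith
  exact le_of_mul_le_mul_left h3 hs0

/-- The bound for maps on the finitely supported functions. -/
theorem pre_bound {g : Pre Tree → L1} {L C : ℝ} (hL : ∀ x y, ‖g x - g y‖ ≤ L * ‖x - y‖) (hL0 : 0 ≤ L)
    (hC : 0 < C)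
    (hco : ∀ x, ∀ ρ > 0, ∀ u, ‖u - g x‖ < ρ / C → ∀ δ > 0, ∃ x', ‖x' - x‖ < ρ ∧ ‖g x' - u‖ < δ) :
    √2 ≤ L * C := by
  have hp : ∀ v, thetaS g hL v ≤ L * ‖v‖ := fun v => theta_le_norm hL0 hL v
  have h := seminorm_bound (p := thetaS g hL) hL0 hp hC (fun e N hN => propA hL hC hco e hN)
  exact h.trans (mul_le_mul_of_nonneg_right (sp_le hL0 hp) hC.le)

end Pool.Agent.H362
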