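import Pool.Agent.R277.JT.Tree

/-!
# An upper estimate for `‖x + z‖ + ‖x - z‖` in the James tree space (helper file for MP_df3c4e_an)
-/

set_option autoImplicit false
set_option linter.unusedSectionVars false

open Set Filter Topology Pool.Agent.R277.JT

namespace Pool.Agent.H362

/-- elementary inequality -/
lemma real_K1 {a a' z z' W k : ℝ} (h1 : z ^ 2 ≤ W ^ 2) (h2 : z' ^ 2 ≤ W ^ 2)
    (h3 : z * z' ≤ 0 → z ^ 2 + z' ^ 2 ≤ W ^ 2) (hk : 0 ≤ k) (hk' : -(a * a') ≤ k) :
    (a * z - a' * z') ^ 2 ≤ (a ^ 2 + a' ^ 2 + 2 * k) * W ^ 2 := by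
  by_cases h : z * z' ≤ 0
  · have h4 := h3 h
    have h5 : (a * z - a' * z') ^ 2 ≤ (a ^ 2 + a' ^ 2) * (z ^ 2 + z' ^ 2) := by
      nlinarith [sq_nonneg (a * z' + a' * z)]
    have h6 : (a ^ 2 + a' ^ 2) * (z ^ 2 + z' ^ 2) ≤ (a ^ 2 + a' ^ 2) * W ^ 2 :=
      mul_le_mul_of_nonneg_left h4 (by positivity)
    have h7 : 0 ≤ 2 * k * W ^ 2 := by positivity
    nlinarith
  · have hpos : 0 < z * z' := not_le.1 h
    have h4 : a ^ 2 * z ^ 2 ≤ a ^ 2 * W ^ 2 := mul_le_mul_of_nonneg_left h1 (sq_nonneg _)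
    have h5 : a' ^ 2 * z' ^ 2 ≤ a' ^ 2 * W ^ 2 := mul_le_mul_of_nonneg_left h2 (sq_nonneg _)
    have h6 : -(a * a') * (z * z') ≤ k * (z * z') := mul_le_mul_of_nonneg_right hk' hpos.le
    have h7 : z * z' ≤ W ^ 2 := by nlinarith [sq_nonneg (z - z')]
    have h8 : k * (z * z') ≤ k * W ^ 2 := mul_le_mul_of_nonneg_left h7 hk
    nlinarith

/-- near-norming families -/
lemma exists_fam (x : Pre Tree) {ε : ℝ} (hε : 0 < ε) :
    ∃ P : Finset (Finset Tree), IsFam P ∧ ‖x‖ - ε < √(∑ S ∈ P, (ss S x) ^ 2) := by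
  have h : ‖x‖ - ε < ⨆ P : {P : Finset (Finset Tree) // IsFam P}, √(∑ S ∈ P.1, (∑ i ∈ S, x.val i) ^ 2) := by
    change ‖x‖ - ε < ‖x‖
    linarith
  have : Nonempty {P : Finset (Finset Tree) // IsFam P} := ⟨⟨∅, by simp [IsFam]⟩⟩
  obtain ⟨P, hP⟩ := exists_lt_of_lt_ciSup h
  exact ⟨P.1, P.2, hP⟩

/-- the nodes of level `m` -/
noncomputable def nodes (m : ℕ) : Finset Tree := by
  classical
  exact (Lev.fin (I := Tree) (m + 1)).toFinset.filter (fun i => lev i = m)

lemma mem_nodes {m : ℕ} {i : Tree} : i ∈ nodes m ↔ lev i = m := by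
  classical
  unfold nodes
  rw [Finset.mem_filter, Set.Finite.mem_toFinset]
  constructor
  · rintro ⟨_, h⟩; exact h
  · intro h; exact ⟨show lev i < m + 1 by omega, h⟩

open Classical in
/-- the member of the family `F` which contains `s` -/
noncomputable def pick (F : Finset (Finset Tree)) (s : Tree) : Finset Tree :=
  (F.filter (fun S => s ∈ S)).biUnion id

lemma pick_eq {F : Finset (Finset Tree)} (hF : IsFam F) {S : Finset Tree} (hS : S ∈ F) {s : Tree}
    (hs : s ∈ S) : pick F s = S := by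
  classical
  have h1 : F.filter (fun S => s ∈ S) = {S} := by
    ext S'
    rw [Finset.mem_filter, Finset.mem_singleton]
    constructor
    · rintro ⟨h1, h2⟩
      by_contra hne
      exact (Finset.disjoint_left.1 (hF.2 h1 hS hne)) h2 hs
    · rintro rfl; exact ⟨hS, hs⟩
  unfold pick
  rw [h1, Finset.singleton_biUnion]
  rfl

lemma pick_empty {F : Finset (Finset Tree)} {s : Tree} (h : ¬ ∃ S ∈ F, s ∈ S) : pick F s = ∅ := by
  classical
  unfold pick
  rw [Finset.filter_eq_empty_iff.2 (fun S hS hs => h ⟨S, hS, hs⟩)]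
  rfl

/-- either `pick F s` is a member of `F` containing `s`, or it is empty -/
lemma pick_cases {F : Finset (Finset Tree)} (hF : IsFam F) (s : Tree) :
    (pick F s ∈ F ∧ s ∈ pick F s) ∨ pick F s = ∅ := by
  by_cases h : ∃ S ∈ F, s ∈ S
  · obtain ⟨S, hS, hs⟩ := h
    left
    rw [pick_eq hF hS hs]
    exact ⟨hS, hs⟩
  · right; exact pick_empty h

/-- nodes on the same level in a segment are equal -/
lemma eq_of_lev_seg {S : Finset Tree} (hS : IsSeg S) {s s' : Tree} (hs : s ∈ S) (hs' : s' ∈ S)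
    (h : lev s = lev s') : s = s' := by
  obtain ⟨a, c, _, hm⟩ := hS
  rcases Forest.comp s s' c ((hm s).1 hs).2 ((hm s').1 hs').2 with h1 | h1
  · exact eq_of_lev h1 h.ge
  · exact (eq_of_lev h1 h.le).symm

lemma pick_disj {F : Finset (Finset Tree)} (hF : IsFam F) {m : ℕ} {s s' : Tree} (hs : lev s = m)
    (hs' : lev s' = m) (hne : s ≠ s') : Disjoint (pick F s) (pick F s') := by
  rcases pick_cases hF s with h | h
  · rcases pick_cases hF s' with h' | h'
    · apply hF.2 h.1 h'.1
      intro heq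
      apply hne
      apply eq_of_lev_seg (hF.1 _ h.1) h.2 _ (hs.trans hs'.symm)
      rw [heq]
      exact h'.2
    · rw [h']; exact Finset.disjoint_empty_right _
  · rw [h]; exact Finset.disjoint_empty_left _

/-- products of sums of `x` (low levels) and `z` (high levels) -/
lemma sum_pick {F : Finset (Finset Tree)} (hF : IsFam F) {m : ℕ} {x z : Pre Tree}
    (hx : ∀ i, m ≤ lev i → x.val i = 0) (hz : ∀ i, lev i < m → z.val i = 0) :
    ∑ S ∈ F, ss S x * ss S z = ∑ s ∈ nodes m, ss (pick F s) x * ss (pick F s) z := by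
  classical
  have h1 : ∀ S ∈ F, ss S x * ss S z = ∑ s ∈ nodes m, if s ∈ S then ss S x * ss S z else 0 := by
    intro S hS
    obtain ⟨a, c, hac, hm⟩ := hF.1 S hS
    by_cases h : ∃ s ∈ S, lev s = m
    · obtain ⟨s, hs, hsm⟩ := h
      rw [Finset.sum_eq_single_of_mem s (mem_nodes.2 hsm), if_pos hs]
      intro b hb hbs
      rw [if_neg]
      intro hbS
      exact hbs (eq_of_lev_seg (hF.1 S hS) hbS hs ((mem_nodes.1 hb).trans hsm.symm))
    · push Not at h
      have hR : ∑ s ∈ nodes m, (if s ∈ S then ss S x * ss S z else 0) = 0 := by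
        apply Finset.sum_eq_zero
        intro s hs
        rw [if_neg]
        intro hsS
        exact h s hsS (mem_nodes.1 hs)
      rw [hR]
      by_cases h2 : m ≤ lev a
      · -- all elements are on high levels
        have : ss S x = 0 := by
          apply Finset.sum_eq_zero
          intro i hi
          exact hx i (h2.trans (lev_mono ((hm i).1 hi).1))
        rw [this, zero_mul]
      · have : ss S z = 0 := by
          apply Finset.sum_eq_zero
          intro i hi
          apply hz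
          by_contra hcon
          obtain ⟨b, hb1, hb2⟩ := exists_pred i (k := m) (not_lt.1 hcon)
          apply h b _ hb2
          rw [hm]
          refine ⟨?_, hb1.trans ((hm i).1 hi).2⟩
          rcases Forest.comp a b i ((hm i).1 hi).1 hb1 with h3 | h3
          · exact h3
          · have h4 := lev_mono h3
            omega
        rw [this, mul_zero]
  have h2 : ∀ s ∈ nodes m, ss (pick F s) x * ss (pick F s) z =
      ∑ S ∈ F, if s ∈ S then ss S x * ss S z else 0 := by
    intro s _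
    by_cases h : ∃ S ∈ F, s ∈ S
    · obtain ⟨S, hS, hs⟩ := h
      rw [Finset.sum_eq_single_of_mem S hS, if_pos hs, pick_eq hF hS hs]
      intro S' hS' hne
      rw [if_neg]
      intro hs'
      exact (Finset.disjoint_left.1 (hF.2 hS' hS hne)) hs' hs
    · rw [pick_empty h]
      push Not at h
      rw [Finset.sum_eq_zero]
      · simp [ss]
      · intro S hS
        rw [if_neg (h S hS)]
  rw [Finset.sum_congr rfl h1, Finset.sum_congr rfl h2, Finset.sum_comm]

/-- sums of `z` over segments through `s`, where `z` lives on levels `≥ lev s` -/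
lemma ss_above {s : Tree} {z : Pre Tree} (hz : ∀ i, lev i < lev s → z.val i = 0)
    {S : Finset Tree} (hS : IsSeg S) (hs : s ∈ S) : ss S z = ss S (resL (Ici s) z) := by
  classical
  obtain ⟨a, c, _, hm⟩ := hS
  apply Finset.sum_congr rfl
  intro i hi
  rw [val_resL]
  split_ifs with h
  · rfl
  · apply hz
    rcases Forest.comp i s c ((hm i).1 hi).2 ((hm s).1 hs).2 with h1 | h1
    · by_contra hcon
      exact h (show s ≤ i from (eq_of_lev h1 (not_lt.1 hcon)).ge)
    · exact absurd h1 h

/-- intersections of segments with order-connected sets, for any decidability instance -/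
lemma seg_filter {S : Finset Tree} (hS : IsSeg S) {A : Set Tree} (hA : A.OrdConnected)
    [DecidablePred (fun i => i ∈ A)] (hne : (S.filter (fun i => i ∈ A)).Nonempty) :
    IsSeg (S.filter (fun i => i ∈ A)) := by
  have h : S.filter (fun i => i ∈ A) = @Finset.filter _ (fun i => i ∈ A) (fun i => Classical.propDecidable _) S := by
    ext i
    simp only [Finset.mem_filter]
  rw [h] at hne ⊢
  exact seg_inter hS hA hne

/-- two sums of opposite signs over segments with least element `s` -/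
lemma opp_signs {s : Tree} {z : Pre Tree} (hz : ∀ i, ¬ s ≤ i → z.val i = 0)
    {S S' : Finset Tree} (hS : IsSeg S) (hS' : IsSeg S') (hs : s ∈ S) (hs' : s ∈ S')
    (h : ss S z * ss S' z ≤ 0) : (ss S z) ^ 2 + (ss S' z) ^ 2 ≤ ‖z‖ ^ 2 := by
  classical
  obtain ⟨a, c, hac, hm⟩ := id hS
  obtain ⟨a', c', hac', hm'⟩ := id hS'
  -- the parts above `s`
  set H := S.filter (fun i => i ∈ Ici s) with hH
  set H' := S'.filter (fun i => i ∈ Ici s) with hH'
  set D := H.filter (fun i => i ∈ Iic c') with hD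
  set T := S.filter (fun i => i ∈ Ici s ∩ (Iic c')ᶜ) with hT
  set T' := S'.filter (fun i => i ∈ Ici s ∩ (Iic c)ᶜ) with hT'
  have e1 : ss S z = ss H z := by
    unfold ss
    rw [hH, Finset.sum_filter]
    apply Finset.sum_congr rfl
    intro i _
    split_ifs with h1
    · rfl
    · exact hz i h1
  have e1' : ss S' z = ss H' z := by
    unfold ss
    rw [hH', Finset.sum_filter]
    apply Finset.sum_congr rfl
    intro i _
    split_ifs with h1
    · rfl
    · exact hz i h1
  have hsa : a ≤ s := ((hm s).1 hs).1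
  have hsa' : a' ≤ s := ((hm' s).1 hs').1
  have e2 : ss H z = ss D z + ss T z := by
    unfold ss
    have h1 := Finset.sum_filter_add_sum_filter_not H (fun i => i ∈ Iic c') (fun i => z.val i)
    rw [← h1]
    congr 1
    apply Finset.sum_congr _ (fun _ _ => rfl)
    ext i
    simp only [hH, hT, Finset.mem_filter, Set.mem_inter_iff, Set.mem_compl_iff]
    tauto
  have e2' : ss H' z = ss D z + ss T' z := by
    unfold ss
    have h1 := Finset.sum_filter_add_sum_filter_not H' (fun i => i ∈ Iic c) (fun i => z.val i)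
    rw [← h1]
    congr 1
    · apply Finset.sum_congr _ (fun _ _ => rfl)
      ext i
      simp only [hH', hD, hH, Finset.mem_filter, Set.mem_Ici, Set.mem_Iic, hm, hm']
      constructor
      · rintro ⟨⟨⟨h1, h2⟩, h3⟩, h4⟩
        exact ⟨⟨⟨hsa.trans h3, h4⟩, h3⟩, h2⟩
      · rintro ⟨⟨⟨h1, h2⟩, h3⟩, h4⟩
        exact ⟨⟨⟨hsa'.trans h3, h4⟩, h3⟩, h2⟩
    · apply Finset.sum_congr _ (fun _ _ => rfl)
      ext i
      simp only [hH', hT', Finset.mem_filter, Set.mem_inter_iff, Set.mem_compl_iff]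
      tauto
  have oc1 : (Ici s ∩ (Iic c')ᶜ).OrdConnected :=
    ordConnected_Ici.inter (isLowerSet_Iic c').compl.ordConnected
  have oc2 : (Ici s ∩ (Iic c)ᶜ).OrdConnected :=
    ordConnected_Ici.inter (isLowerSet_Iic c).compl.ordConnected
  have segH : H.Nonempty → IsSeg H := fun hne => seg_filter hS ordConnected_Ici hne
  have segH' : H'.Nonempty → IsSeg H' := fun hne => seg_filter hS' ordConnected_Ici hne
  have segT : T.Nonempty → IsSeg T := fun hne => seg_filter hS oc1 hne
  have segT' : T'.Nonempty → IsSeg T' := fun hne => seg_filter hS' oc2 hne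
  -- the two families
  have f1 : (ss H z) ^ 2 + (ss T' z) ^ 2 ≤ ‖z‖ ^ 2 := by
    have hdis : Disjoint H T' := by
      rw [Finset.disjoint_left]
      intro i hi hi'
      rw [hH, Finset.mem_filter] at hi
      rw [hT', Finset.mem_filter] at hi'
      exact hi'.2.2 (show i ≤ c from ((hm i).1 hi.1).2)
    have h1 := indexed z (Finset.univ : Finset Bool) (fun b => if b then H else T')
      (by intro b _; cases b
          · simpa using segT'
          · simpa using segH)
      (by intro b _ b' _ hbb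
          cases b <;> cases b'
          · exact absurd rfl hbb
          · simpa using hdis.symm
          · simpa using hdis
          · exact absurd rfl hbb)
    rw [Fintype.sum_bool] at h1
    simpa using h1
  have f2 : (ss H' z) ^ 2 + (ss T z) ^ 2 ≤ ‖z‖ ^ 2 := by
    have hdis : Disjoint H' T := by
      rw [Finset.disjoint_left]
      intro i hi hi'
      rw [hH', Finset.mem_filter] at hi
      rw [hT, Finset.mem_filter] at hi'
      exact hi'.2.2 (show i ≤ c' from ((hm' i).1 hi.1).2)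
    have h1 := indexed z (Finset.univ : Finset Bool) (fun b => if b then H' else T)
      (by intro b _; cases b
          · simpa using segT
          · simpa using segH')
      (by intro b _ b' _ hbb
          cases b <;> cases b'
          · exact absurd rfl hbb
          · simpa using hdis.symm
          · simpa using hdis
          · exact absurd rfl hbb)
    rw [Fintype.sum_bool] at h1
    simpa using h1
  rw [e1, e1'] at h ⊢
  set p := ss H z
  set p' := ss H' z
  set d := ss D z
  set q := ss T z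
  set q' := ss T' z
  by_cases hd : d * p' ≤ 0
  · have hq : q' = p' - d := by linarith
    have : p' ^ 2 ≤ q' ^ 2 := by rw [hq]; nlinarith [sq_nonneg d]
    linarith
  · have hd2 : d * p ≤ 0 := by
      by_contra hcon
      have h3 : 0 < (d * p) * (d * p') := mul_pos (not_le.1 hcon) (not_le.1 hd)
      nlinarith [sq_nonneg d]
    have hq : q = p - d := by linarith
    have : p ^ 2 ≤ q ^ 2 := by rw [hq]; nlinarith [sq_nonneg d]
    linarith

/-- splitting one of two segments through `s` -/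
lemma split_segs {s : Tree} {x : Pre Tree} (hx : ∀ i, lev s ≤ lev i → x.val i = 0)
    {S S' : Finset Tree} (hS : IsSeg S) (hS' : IsSeg S') (hs : s ∈ S) (hs' : s ∈ S') :
    ∃ A B A' B' : Finset Tree, (A ⊆ S ∧ B ⊆ S ∧ Disjoint A B ∧ (A.Nonempty → IsSeg A) ∧
      (B.Nonempty → IsSeg B)) ∧ (A' ⊆ S' ∧ B' ⊆ S' ∧ Disjoint A' B' ∧ (A'.Nonempty → IsSeg A') ∧
      (B'.Nonempty → IsSeg B')) ∧
      (ss S x - ss S' x) ^ 2 ≤ (ss A x) ^ 2 + (ss B x) ^ 2 + (ss A' x) ^ 2 + (ss B' x) ^ 2 := by
  classical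
  -- one half of the argument
  have key : ∀ S S' : Finset Tree, IsSeg S → IsSeg S' → s ∈ S → s ∈ S' →
      ∀ a a' c c' : Tree, (∀ b, b ∈ S ↔ a ≤ b ∧ b ≤ c) → (∀ b, b ∈ S' ↔ a' ≤ b ∧ b ≤ c') → a ≤ a' →
      ∃ A B : Finset Tree, (A ⊆ S ∧ B ⊆ S ∧ Disjoint A B ∧ (A.Nonempty → IsSeg A) ∧
        (B.Nonempty → IsSeg B)) ∧ ss A x = ss S' x ∧ ss B x = ss S x - ss S' x := by
    intro S S' hS hS' hs hs' a a' c c' hm hm' haa'
    refine ⟨S.filter (fun i => i ∈ Ici a'), S.filter (fun i => i ∈ (Ici a')ᶜ), ⟨Finset.filter_subset _ _,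
      Finset.filter_subset _ _, ?_, fun h => seg_filter hS ordConnected_Ici h,
      fun h => seg_filter hS (isUpperSet_Ici a').compl.ordConnected h⟩, ?_, ?_⟩
    · rw [Finset.disjoint_left]
      intro i hi hi'
      rw [Finset.mem_filter] at hi hi'
      exact hi'.2 hi.2
    · have h1 : ss (S.filter (fun i => i ∈ Ici a')) x = ss (S'.filter (fun i => i ∈ Iic s)) x := by
        -- both are sums over the same set, up to points of high level
        have hl : ss (S.filter (fun i => i ∈ Ici a')) x =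
            ss ((S.filter (fun i => i ∈ Ici a')).filter (fun i => i ∈ Iic s)) x := by
          unfold ss
          rw [Finset.sum_filter (s := S.filter (fun i => i ∈ Ici a'))]
          apply Finset.sum_congr rfl
          intro i hi
          split_ifs with h1
          · rfl
          · apply hx
            rw [Finset.mem_filter] at hi
            rcases Forest.comp i s c ((hm i).1 hi.1).2 ((hm s).1 hs).2 with h2 | h2
            · exact absurd h2 h1
            · exact lev_mono h2
        rw [hl]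
        congr 1
        ext i
        simp only [Finset.mem_filter, Set.mem_Ici, Set.mem_Iic, hm, hm']
        constructor
        · rintro ⟨⟨⟨h1, h2⟩, h3⟩, h4⟩
          exact ⟨⟨h3, h4.trans ((hm' s).1 hs').2⟩, h4⟩
        · rintro ⟨⟨h1, h2⟩, h3⟩
          exact ⟨⟨⟨haa'.trans h1, h3.trans ((hm s).1 hs).2⟩, h1⟩, h3⟩
      rw [h1]
      unfold ss
      rw [Finset.sum_filter]
      apply Finset.sum_congr rfl
      intro i hi
      split_ifs with h1
      · rfl
      · symm
        apply hx
        rcases Forest.comp i s c' ((hm' i).1 hi).2 ((hm' s).1 hs').2 with h2 | h2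
        · exact absurd h2 h1
        · exact lev_mono h2
    · have h1 : ss (S.filter (fun i => i ∈ Ici a')) x = ss S' x := by
        have h1 : ss (S.filter (fun i => i ∈ Ici a')) x = ss (S'.filter (fun i => i ∈ Iic s)) x := by
          have hl : ss (S.filter (fun i => i ∈ Ici a')) x =
              ss ((S.filter (fun i => i ∈ Ici a')).filter (fun i => i ∈ Iic s)) x := by
            unfold ss
            rw [Finset.sum_filter (s := S.filter (fun i => i ∈ Ici a'))]
            apply Finset.sum_congr rfl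
            intro i hi
            split_ifs with h1
            · rfl
            · apply hx
              rw [Finset.mem_filter] at hi
              rcases Forest.comp i s c ((hm i).1 hi.1).2 ((hm s).1 hs).2 with h2 | h2
              · exact absurd h2 h1
              · exact lev_mono h2
          rw [hl]
          congr 1
          ext i
          simp only [Finset.mem_filter, Set.mem_Ici, Set.mem_Iic, hm, hm']
          constructor
          · rintro ⟨⟨⟨h1, h2⟩, h3⟩, h4⟩
            exact ⟨⟨h3, h4.trans ((hm' s).1 hs').2⟩, h4⟩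
          · rintro ⟨⟨h1, h2⟩, h3⟩
            exact ⟨⟨⟨haa'.trans h1, h3.trans ((hm s).1 hs).2⟩, h1⟩, h3⟩
        rw [h1]
        unfold ss
        rw [Finset.sum_filter]
        apply Finset.sum_congr rfl
        intro i hi
        split_ifs with h1
        · rfl
        · symm
          apply hx
          rcases Forest.comp i s c' ((hm' i).1 hi).2 ((hm' s).1 hs').2 with h2 | h2
          · exact absurd h2 h1
          · exact lev_mono h2
      have h2 : ss S x = ss (S.filter (fun i => i ∈ Ici a')) x + ss (S.filter (fun i => i ∈ (Ici a')ᶜ)) x := by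
        unfold ss
        exact (Finset.sum_filter_add_sum_filter_not S (fun i => i ∈ Ici a') (fun i => x.val i)).symm
      linarith
  obtain ⟨a, c, hac, hm⟩ := id hS
  obtain ⟨a', c', hac', hm'⟩ := id hS'
  rcases Forest.comp a a' s ((hm s).1 hs).1 ((hm' s).1 hs').1 with h | h
  · obtain ⟨A, B, hAB, hA, hB⟩ := key S S' hS hS' hs hs' a a' c c' hm hm' h
    refine ⟨A, B, S', ∅, hAB, ⟨Finset.Subset.refl _, Finset.empty_subset _,
      Finset.disjoint_empty_right _, fun _ => hS', fun h => absurd rfl h.ne_empty⟩, ?_⟩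
    rw [hB]
    have := sq_nonneg (ss A x)
    have := sq_nonneg (ss S' x)
    have := sq_nonneg (ss ∅ x)
    linarith
  · obtain ⟨A, B, hAB, hA, hB⟩ := key S' S hS' hS hs' hs a' a c' c hm' hm h
    refine ⟨S, ∅, A, B, ⟨Finset.Subset.refl _, Finset.empty_subset _,
      Finset.disjoint_empty_right _, fun _ => hS, fun h => absurd rfl h.ne_empty⟩, hAB, ?_⟩
    rw [hB]
    have := sq_nonneg (ss A x)
    have := sq_nonneg (ss S x)
    have := sq_nonneg (ss ∅ x)
    nlinarith

/-- The splitting for `pick`s, with the extra term `2 max(0, -αα')`. -/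
lemma split_pick {F F' : Finset (Finset Tree)} (hF : IsFam F) (hF' : IsFam F') {x : Pre Tree} (s : Tree)
    (hx : ∀ i, lev s ≤ lev i → x.val i = 0) :
    ∃ A B A' B' : Finset Tree, (A ⊆ pick F s ∧ B ⊆ pick F s ∧ Disjoint A B ∧ (A.Nonempty → IsSeg A) ∧
      (B.Nonempty → IsSeg B)) ∧ (A' ⊆ pick F' s ∧ B' ⊆ pick F' s ∧ Disjoint A' B' ∧
      (A'.Nonempty → IsSeg A') ∧ (B'.Nonempty → IsSeg B')) ∧
      (ss (pick F s) x) ^ 2 + (ss (pick F' s) x) ^ 2 + 2 * max 0 (-(ss (pick F s) x * ss (pick F' s) x))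
        ≤ (ss A x) ^ 2 + (ss B x) ^ 2 + (ss A' x) ^ 2 + (ss B' x) ^ 2 := by
  have hseg : ∀ G : Finset (Finset Tree), IsFam G → ((pick G s).Nonempty → IsSeg (pick G s)) := by
    intro G hG hne
    rcases pick_cases hG s with h | h
    · exact hG.1 _ h.1
    · exact absurd h hne.ne_empty
  by_cases h0 : 0 ≤ ss (pick F s) x * ss (pick F' s) x
  · refine ⟨pick F s, ∅, pick F' s, ∅, ⟨Finset.Subset.refl _, Finset.empty_subset _,
      Finset.disjoint_empty_right _, hseg F hF, fun h => absurd rfl h.ne_empty⟩,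
      ⟨Finset.Subset.refl _, Finset.empty_subset _,
      Finset.disjoint_empty_right _, hseg F' hF', fun h => absurd rfl h.ne_empty⟩, ?_⟩
    rw [max_eq_left (by linarith)]
    have := sq_nonneg (ss ∅ x)
    linarith
  · have h1 : ss (pick F s) x * ss (pick F' s) x < 0 := not_le.1 h0
    rcases pick_cases hF s with h | h
    · rcases pick_cases hF' s with h' | h'
      · obtain ⟨A, B, A', B', hA, hA', hle⟩ := split_segs hx (hF.1 _ h.1) (hF'.1 _ h'.1) h.2 h'.2
        refine ⟨A, B, A', B', hA, hA', ?_⟩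
        rw [max_eq_right (by linarith)]
        nlinarith
      · rw [h'] at h1
        simp [ss] at h1
    · rw [h] at h1
      simp [ss] at h1

/-- The key estimate (K). -/
lemma keyK {F F' : Finset (Finset Tree)} (hF : IsFam F) (hF' : IsFam F') {m : ℕ} {x z : Pre Tree}
    (hx : ∀ i, m ≤ lev i → x.val i = 0) (hz : ∀ i, lev i < m → z.val i = 0) :
    ∑ S ∈ F, ss S x * ss S z - ∑ S ∈ F', ss S x * ss S z ≤ √2 * ‖x‖ * ‖z‖ := by
  classical
  rw [sum_pick hF hx hz, sum_pick hF' hx hz, ← Finset.sum_sub_distrib]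
  set q : Tree → ℝ := fun s => (ss (pick F s) x) ^ 2 + (ss (pick F' s) x) ^ 2 +
    2 * max 0 (-(ss (pick F s) x * ss (pick F' s) x)) with hq
  have hq0 : ∀ s, 0 ≤ q s := fun s => by
    have := le_max_left 0 (-(ss (pick F s) x * ss (pick F' s) x))
    simp only [hq]
    positivity
  -- (K1)
  have hK1 : ∀ s ∈ nodes m, ss (pick F s) x * ss (pick F s) z - ss (pick F' s) x * ss (pick F' s) z ≤
      √(q s) * ‖resL (Ici s) z‖ := by
    intro s hs
    have hsm := mem_nodes.1 hs
    have hz' : ∀ i, lev i < lev s → z.val i = 0 := fun i hi => hz i (hsm ▸ hi)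
    have hz'' : ∀ i, ¬ s ≤ i → (resL (Ici s) z).val i = 0 := fun i hi => by
      rw [val_resL, if_neg (show i ∉ Ici s from hi)]
    have hb : ∀ G : Finset (Finset Tree), IsFam G → (ss (pick G s) z) ^ 2 ≤ ‖resL (Ici s) z‖ ^ 2 := by
      intro G hG
      rcases pick_cases hG s with h | h
      · rw [ss_above hz' (hG.1 _ h.1) h.2]
        exact sq_le_sq' (by linarith [(abs_le.1 (seg_le (resL (Ici s) z) (hG.1 _ h.1))).1])
          (abs_le.1 (seg_le (resL (Ici s) z) (hG.1 _ h.1))).2
      · rw [h]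
        have h5 : ss ∅ z = 0 := by simp [ss]
        rw [h5, zero_pow two_ne_zero]
        exact sq_nonneg _
    have h3 : ss (pick F s) z * ss (pick F' s) z ≤ 0 →
        (ss (pick F s) z) ^ 2 + (ss (pick F' s) z) ^ 2 ≤ ‖resL (Ici s) z‖ ^ 2 := by
      intro h0
      rcases pick_cases hF s with h | h
      · rcases pick_cases hF' s with h' | h'
        · rw [ss_above hz' (hF.1 _ h.1) h.2, ss_above hz' (hF'.1 _ h'.1) h'.2] at h0 ⊢
          exact opp_signs hz'' (hF.1 _ h.1) (hF'.1 _ h'.1) h.2 h'.2 h0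
        · have h4 := hb F hF
          rw [h']
          have h5 : ss ∅ z = 0 := by simp [ss]
          rw [h5]
          linarith
      · have h4 := hb F' hF'
        rw [h]
        have h5 : ss ∅ z = 0 := by simp [ss]
        rw [h5]
        linarith
    have h4 := real_K1 (hb F hF) (hb F' hF') h3 (le_max_left 0 (-(ss (pick F s) x * ss (pick F' s) x)))
      (le_max_right 0 (-(ss (pick F s) x * ss (pick F' s) x)))
    have h5 : (ss (pick F s) x * ss (pick F s) z - ss (pick F' s) x * ss (pick F' s) z) ^ 2 ≤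
        (√(q s) * ‖resL (Ici s) z‖) ^ 2 := by
      rw [mul_pow, Real.sq_sqrt (hq0 s)]
      exact h4
    exact (le_abs_self _).trans (abs_le_of_sq_le_sq h5 (by positivity))
  -- (K2)
  have hK2 : ∑ s ∈ nodes m, q s ≤ 2 * ‖x‖ ^ 2 := by
    have hch : ∀ s : Tree, ∃ A B A' B' : Finset Tree, s ∈ nodes m → (A ⊆ pick F s ∧ B ⊆ pick F s ∧
      Disjoint A B ∧ (A.Nonempty → IsSeg A) ∧
      (B.Nonempty → IsSeg B)) ∧ (A' ⊆ pick F' s ∧ B' ⊆ pick F' s ∧ Disjoint A' B' ∧
      (A'.Nonempty → IsSeg A') ∧ (B'.Nonempty → IsSeg B')) ∧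
      q s ≤ (ss A x) ^ 2 + (ss B x) ^ 2 + (ss A' x) ^ 2 + (ss B' x) ^ 2 := by
      intro s
      by_cases hs : s ∈ nodes m
      · obtain ⟨A, B, A', B', h⟩ := split_pick hF hF' (x := x) s (fun i hi => hx i ((mem_nodes.1 hs) ▸ hi))
        exact ⟨A, B, A', B', fun _ => h⟩
      · exact ⟨∅, ∅, ∅, ∅, fun h => absurd h hs⟩
    choose A B A' B' hAB using hch
    have hfam : ∀ (G : Finset (Finset Tree)) (hG : IsFam G) (A B : Tree → Finset Tree),
        (∀ s ∈ nodes m, A s ⊆ pick G s ∧ B s ⊆ pick G s ∧ Disjoint (A s) (B s) ∧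
          ((A s).Nonempty → IsSeg (A s)) ∧ ((B s).Nonempty → IsSeg (B s))) →
        ∑ s ∈ nodes m, ((ss (A s) x) ^ 2 + (ss (B s) x) ^ 2) ≤ ‖x‖ ^ 2 := by
      intro G hG A B h
      have h1 := indexed x (nodes m ×ˢ (Finset.univ : Finset Bool))
        (fun p => if p.2 then A p.1 else B p.1)
        (by
          rintro ⟨s, b⟩ hp
          rw [Finset.mem_product] at hp
          cases b
          · simpa using (h s hp.1).2.2.2.2
          · simpa using (h s hp.1).2.2.2.1)
        (by
          rintro ⟨s, b⟩ hp ⟨s', b'⟩ hp' hne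
          rw [Finset.mem_product] at hp hp'
          by_cases hss : s = s'
          · subst hss
            have hd := (h s hp.1).2.2.1
            cases b <;> cases b'
            · exact absurd rfl hne
            · simpa using hd.symm
            · simpa using hd
            · exact absurd rfl hne
          · have hd := pick_disj hG (mem_nodes.1 hp.1) (mem_nodes.1 hp'.1) hss
            have hsub : ∀ (u : Tree) (e : Bool), u ∈ nodes m → (if e then A u else B u) ⊆ pick G u := by
              intro u e hu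
              cases e
              · simpa using (h u hu).2.1
              · simpa using (h u hu).1
            exact Disjoint.mono (hsub s b hp.1) (hsub s' b' hp'.1) hd)
      rw [Finset.sum_product] at h1
      simpa [Fintype.sum_bool] using h1
    have g1 := hfam F hF A B (fun s hs => (hAB s hs).1)
    have g2 := hfam F' hF' A' B' (fun s hs => (hAB s hs).2.1)
    calc ∑ s ∈ nodes m, q s ≤ ∑ s ∈ nodes m, (((ss (A s) x) ^ 2 + (ss (B s) x) ^ 2) +
          ((ss (A' s) x) ^ 2 + (ss (B' s) x) ^ 2)) :=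
          Finset.sum_le_sum fun s hs => by linarith [(hAB s hs).2.2]
      _ ≤ 2 * ‖x‖ ^ 2 := by rw [Finset.sum_add_distrib]; linarith
  -- (K3)
  have hK3 : ∑ s ∈ nodes m, ‖resL (Ici s) z‖ ^ 2 ≤ ‖z‖ ^ 2 := by
    apply sum_sq_res (nodes m) (fun s => Ici s) (fun _ _ => ordConnected_Ici)
    intro s hs s' hs' hne
    rw [Set.disjoint_left]
    intro i hi hi'
    apply hne
    rcases Forest.comp s s' i hi hi' with h | h
    · exact eq_of_lev h (by rw [mem_nodes.1 hs, mem_nodes.1 hs'])
    · exact (eq_of_lev h (by rw [mem_nodes.1 hs, mem_nodes.1 hs'])).symm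
  have hCS := Finset.sum_mul_sq_le_sq_mul_sq (nodes m) (fun s => √(q s)) (fun s => ‖resL (Ici s) z‖)
  have h6 : ∑ s ∈ nodes m, (√(q s)) ^ 2 = ∑ s ∈ nodes m, q s :=
    Finset.sum_congr rfl fun s _ => Real.sq_sqrt (hq0 s)
  rw [h6] at hCS
  have h7 : (∑ s ∈ nodes m, √(q s) * ‖resL (Ici s) z‖) ^ 2 ≤ (√2 * ‖x‖ * ‖z‖) ^ 2 := by
    rw [mul_pow, mul_pow, Real.sq_sqrt (by norm_num)]
    exact hCS.trans (mul_le_mul hK2 hK3 (Finset.sum_nonneg fun _ _ => sq_nonneg _) (by positivity))
  refine (Finset.sum_le_sum hK1).trans ?_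
  exact (le_abs_self _).trans (abs_le_of_sq_le_sq h7 (by positivity))

/-- elementary inequality -/
lemma real_sqrt {a X t : ℝ} (hX : 0 < X) (h : a ^ 2 ≤ X ^ 2 + 2 * X * t) :
    a ≤ X + t := by
  have h1 : 0 ≤ X ^ 2 + 2 * X * t := (sq_nonneg a).trans h
  have h2 : 0 ≤ X + 2 * t := by
    by_contra hcon
    have h3 : X * (X + 2 * t) < 0 := mul_neg_of_pos_of_neg hX (not_le.1 hcon)
    nlinarith
  have h3 : 0 ≤ X + t := by linarith
  exact (le_abs_self _).trans (abs_le_of_sq_le_sq (by nlinarith [sq_nonneg t]) h3)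

/-- Roughness from above of the James tree norm. -/
theorem rough {m : ℕ} {x z : Pre Tree} (hx : ∀ i, m ≤ lev i → x.val i = 0)
    (hz : ∀ i, lev i < m → z.val i = 0) (hx0 : 0 < ‖x‖) :
    ‖x + z‖ + ‖x - z‖ ≤ 2 * ‖x‖ + √2 * ‖z‖ + ‖z‖ ^ 2 / ‖x‖ := by
  apply le_of_forall_pos_le_add
  intro ε hε
  obtain ⟨F, hF, hFe⟩ := exists_fam (x + z) (ε := ε / 2) (by linarith)
  obtain ⟨F', hF', hFe'⟩ := exists_fam (x - z) (ε := ε / 2) (by linarith)
  have hK := keyK hF hF' hx hz
  set C1 := ∑ S ∈ F, ss S x * ss S z with hC1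
  set C2 := ∑ S ∈ F', ss S x * ss S z with hC2
  have ha : √(∑ S ∈ F, (ss S (x + z)) ^ 2) ≤ ‖x‖ + (2 * C1 + ‖z‖ ^ 2) / (2 * ‖x‖) := by
    apply real_sqrt hx0
    rw [Real.sq_sqrt (Finset.sum_nonneg fun _ _ => sq_nonneg _)]
    have h1 : ∑ S ∈ F, (ss S (x + z)) ^ 2 = ∑ S ∈ F, (ss S x) ^ 2 + 2 * C1 + ∑ S ∈ F, (ss S z) ^ 2 := by
      rw [hC1, Finset.mul_sum, ← Finset.sum_add_distrib, ← Finset.sum_add_distrib]
      exact Finset.sum_congr rfl fun S _ => by rw [ss_add]; ring
    have h2 := fam_le x hF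
    have h3 := fam_le z hF
    have h4 : 2 * ‖x‖ * ((2 * C1 + ‖z‖ ^ 2) / (2 * ‖x‖)) = 2 * C1 + ‖z‖ ^ 2 := by
      field_simp
    rw [h4, h1]
    linarith
  have hb : √(∑ S ∈ F', (ss S (x - z)) ^ 2) ≤ ‖x‖ + (-(2 * C2) + ‖z‖ ^ 2) / (2 * ‖x‖) := by
    apply real_sqrt hx0
    rw [Real.sq_sqrt (Finset.sum_nonneg fun _ _ => sq_nonneg _)]
    have h1 : ∑ S ∈ F', (ss S (x - z)) ^ 2 =
        ∑ S ∈ F', (ss S x) ^ 2 + (-2) * C2 + ∑ S ∈ F', (ss S z) ^ 2 := by
      rw [hC2, Finset.mul_sum, ← Finset.sum_add_distrib, ← Finset.sum_add_distrib]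
      exact Finset.sum_congr rfl fun S _ => by rw [ss_sub]; ring
    have h2 := fam_le x hF'
    have h3 := fam_le z hF'
    have h4 : 2 * ‖x‖ * ((-(2 * C2) + ‖z‖ ^ 2) / (2 * ‖x‖)) = -(2 * C2) + ‖z‖ ^ 2 := by
      field_simp
    rw [h4, h1]
    linarith
  have h5 : (2 * C1 + ‖z‖ ^ 2) / (2 * ‖x‖) + (-(2 * C2) + ‖z‖ ^ 2) / (2 * ‖x‖) =
      (C1 - C2) / ‖x‖ + ‖z‖ ^ 2 / ‖x‖ := by
    field_simp
    ring
  have h6 : (C1 - C2) / ‖x‖ ≤ √2 * ‖z‖ := by
    rw [div_le_iff₀ hx0]
    linarith
  linarith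

end Pool.Agent.H362
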